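import Mathlib
import Pool.Agent.T2H55.XY.Grp
import Pool.Agent.T2H55.XY.Cnt2

/-!
# `X³ + Y³ = p q`: a criterion for generators, and an explicit family of infinite cyclic groups

`C_A : X³ + Y³ = A`. The projective linear map `(X, Y) ↦ (12 A / (X + Y), 36 A (X - Y) / (X + Y))` identifies
`C_A` with the curve `y² = x³ - 432 A²` and the point at infinity of `C_A` (the zero of the group `C_A(ℚ)`)
with its point at infinity; the group of the rational points of this Weierstrass curve is used for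
`C_A(ℚ)`. In part (0) the identification is proved, and that opposite points are `(X, Y)`, `(Y, X)` and
that the sum of three different points on a line is zero.

(1) Let `p ≠ q` be primes, `2` modulo `3`, not both `8` modulo `9`. Let `p x³ + q y³ = z³` with nonzero
integers, `p x` and `q y` coprime, and `10206 max(|p x³|, |q y³|, |z³|)² < max(p, q)⁷`. Then `C_(p q)(ℚ)` is
infinite cyclic, and generated by an explicit point.

(2) If `p + q = w³`, or if `p - q = w³` and `p` is not `8` modulo `9`, this applies: the generators are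
`((q³ + 6 p q² + 3 p² q - p³) / (3 w (p² + p q + q²)), (p³ + 6 p² q + 3 p q² - q³) / (3 w (p² + p q + q²)))` and
`((p³ + 3 p² q - 6 p q² + q³) / (3 w (p² - p q + q²)), (-p³ + 6 p² q - 3 p q² - q³) / (3 w (p² - p q + q²)))`.

(3) The number of the `A ≤ X` of the form `A = p q`, `p + q = w³` as in (2) is at least
`c X^(2/3) / log² X`.

Method. `E : y² + D y = x³` with `D = p q` is `3`-isogenous to `C_D`. (a) The isogeny `E(ℚ) → C_D(ℚ)` is
surjective: this is a descent in `ℤ[ω]` (here the conditions modulo `9` are used). (b) A point of `E` which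
has the same class at `p` and at `q` (in the descent of `p x³ + q y³ = z³`) is `3 R` up to a point of order three.
(c) Explicit heights: tripling multiplies the naive height by `9` up to the factor `729`; so a point outside
of the group generated by the given one has a smaller companion outside of this group. (d) The number:
Goldbach pairs for almost all the values of a polynomial (starting files `Pool/Agent/TH935/GF.lean`,
`Pool/Agent/Y834/CD/Poly.lean`).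
-/

set_option autoImplicit false

open scoped Classical

namespace Pool.Agent.Results.MP_8e0b0b_nt.InfiniteCyclic

/-- The curve `y² = x³ - 432 A²`. -/
def curve (A : ℤ) : WeierstrassCurve ℚ := ⟨0, 0, 0, 0, -432 * (A : ℚ) ^ 2⟩

/-- The group of the rational points. -/
abbrev Points (A : ℤ) := (curve A).toAffine.Point

/-- `P` is the point which corresponds to the point `(X, Y)` of `X³ + Y³ = A`. -/
def IsPoint (A : ℤ) (P : Points A) (X Y : ℚ) : Prop :=
  X ^ 3 + Y ^ 3 = A ∧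
    ∃ h, P = WeierstrassCurve.Affine.Point.some (12 * (A : ℚ) / (X + Y)) (36 * (A : ℚ) * (X - Y) / (X + Y)) h

/-- The group `C_A(ℚ)` is infinite cyclic, and `(X, Y)` is a generator. -/
def Generator (A : ℤ) (X Y : ℚ) : Prop :=
  ∃ P : Points A, IsPoint A P X Y ∧ Function.Bijective fun n : ℤ => n • P

/-- The least size of a generating set of `C_A(ℚ)`. -/
noncomputable def r (A : ℤ) : ℕ :=
  sInf {n | ∃ S : Finset (Points A), S.card = n ∧ AddSubgroup.closure (S : Set (Points A)) = ⊤}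

/-- `A = p q` for primes `p < q`, `2` modulo `3`, such that `p + q` is a cube. -/
def Family (A : ℕ) : Prop :=
  ∃ p q w : ℕ, p.Prime ∧ q.Prime ∧ p < q ∧ p % 3 = 2 ∧ q % 3 = 2 ∧ p + q = w ^ 3 ∧ A = p * q

open Pool.Agent.T2H55.XY

lemma isPoint_iff {A : ℤ} (P : Points A) (X Y : ℚ) :
    IsPoint A P X Y ↔ X ^ 3 + Y ^ 3 = (A : ℚ) ∧
      Pool.Agent.T2H55.XY.At (a := 0) (b := -432 * (A : ℚ) ^ 2) P (wx A X Y) (wy A X Y) := Iff.rfl

lemma of_cyc {A : ℤ} {X Y : ℚ} (h : X ^ 3 + Y ^ 3 = A) (hc : Cyc A X Y) : Generator A X Y := by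
  obtain ⟨P, h1, h2⟩ := hc
  exact ⟨P, ⟨h, h1⟩, h2⟩

lemma cube_of_cyc {A : ℤ} {X Y : ℚ} (hA : (A : ℚ) ≠ 0) (hs : X + Y ≠ 0) (hc : Cyc A X Y) :
    X ^ 3 + Y ^ 3 = A := by
  obtain ⟨P, h1, -⟩ := hc
  have e := h1.eqn
  unfold wx wy at e
  field_simp at e
  have h2 : (A : ℚ) * (X ^ 3 + Y ^ 3 - A) = 0 := by linear_combination (1 / 1728) * e
  have := (mul_eq_zero.1 h2).resolve_left hA
  linarith

theorem result :
    (∀ A : ℤ, A ≠ 0 →
      (∀ X Y : ℚ, X ^ 3 + Y ^ 3 = A → ∃ P : Points A, P ≠ 0 ∧ IsPoint A P X Y) ∧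
      (∀ P : Points A, P ≠ 0 → ∃! z : ℚ × ℚ, IsPoint A P z.1 z.2) ∧
      (∀ (P Q : Points A) (X Y : ℚ), IsPoint A P X Y → IsPoint A Q Y X → P + Q = 0) ∧
      (∀ (P₁ P₂ P₃ : Points A) (X₁ Y₁ X₂ Y₂ X₃ Y₃ a b c : ℚ), IsPoint A P₁ X₁ Y₁ → IsPoint A P₂ X₂ Y₂ →
        IsPoint A P₃ X₃ Y₃ → (X₁, Y₁) ≠ (X₂, Y₂) → (X₁, Y₁) ≠ (X₃, Y₃) → (X₂, Y₂) ≠ (X₃, Y₃) →
        a ≠ 0 ∨ b ≠ 0 → a * X₁ + b * Y₁ = c → a * X₂ + b * Y₂ = c → a * X₃ + b * Y₃ = c →
        P₁ + P₂ + P₃ = 0)) ∧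
    (∀ p q : ℕ, p.Prime → q.Prime → p ≠ q → p % 3 = 2 → q % 3 = 2 → ¬ (p % 9 = 8 ∧ q % 9 = 8) →
      ∀ x y z U V : ℤ, x ≠ 0 → y ≠ 0 → z ≠ 0 → U = p * x ^ 3 → V = q * y ^ 3 → U + V = z ^ 3 →
      IsCoprime ((p : ℤ) * x) (q * y) →
      10206 * (max |U| (max |V| |z ^ 3|)) ^ 2 < (max p q : ℤ) ^ 7 →
      Generator (p * q)
        (-((U : ℚ) ^ 3 - 3 * U ^ 2 * V - 6 * U * V ^ 2 - V ^ 3) / (3 * (x * y * z) * (U ^ 2 + U * V + V ^ 2)))
        (((U : ℚ) ^ 3 + 6 * U ^ 2 * V + 3 * U * V ^ 2 - V ^ 3) / (3 * (x * y * z) * (U ^ 2 + U * V + V ^ 2)))) ∧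
    (∀ p q w : ℕ, p.Prime → q.Prime → p ≠ q → p % 3 = 2 → q % 3 = 2 → p + q = w ^ 3 →
      Generator (p * q)
        (((q : ℚ) ^ 3 + 6 * p * q ^ 2 + 3 * p ^ 2 * q - p ^ 3) / (3 * w * (p ^ 2 + p * q + q ^ 2)))
        (((p : ℚ) ^ 3 + 6 * p ^ 2 * q + 3 * p * q ^ 2 - q ^ 3) / (3 * w * (p ^ 2 + p * q + q ^ 2)))) ∧
    (∀ p q w : ℕ, p.Prime → q.Prime → 0 < w → p % 3 = 2 → q % 3 = 2 → p % 9 ≠ 8 → p = q + w ^ 3 →
      Generator (p * q)
        (((p : ℚ) ^ 3 + 3 * p ^ 2 * q - 6 * p * q ^ 2 + q ^ 3) / (3 * w * (p ^ 2 - p * q + q ^ 2)))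
        ((-(p : ℚ) ^ 3 + 6 * p ^ 2 * q - 3 * p * q ^ 2 - q ^ 3) / (3 * w * (p ^ 2 - p * q + q ^ 2)))) ∧
    (∀ (A : ℤ) (X Y : ℚ), Generator A X Y → r A = 1) ∧
    (∃ c : ℝ, 0 < c ∧ ∃ X₀ : ℕ, ∀ X : ℕ, X₀ ≤ X →
      c * ((X : ℝ) ^ (2 / 3 : ℝ) / Real.log X ^ 2) ≤ (((Finset.Icc 1 X).filter Family).card : ℝ)) := by
  refine ⟨?_, ?_, ?_, ?_, ?_, ?_⟩
  · intro A hA
    have hAq : (A : ℚ) ≠ 0 := by exact_mod_cast hA
    refine ⟨?_, ?_, ?_, ?_⟩
    · intro X Y h
      obtain ⟨P, hP⟩ := exists_pt hAq h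
      exact ⟨P, hP.ne_zero, h, hP⟩
    · intro P hP
      rcases cases_at (a := 0) (b := -432 * (A : ℚ) ^ 2) P with h | ⟨x, y, h⟩
      · exact absurd h hP
      obtain ⟨X, Y, h1, h2, h3⟩ := pt_inv hAq h
      refine ⟨(X, Y), ⟨h1, h.congr h2.symm h3.symm⟩, ?_⟩
      rintro ⟨X', Y'⟩ ⟨g1, g2⟩
      have g2' : At (a := 0) (b := -432 * (A : ℚ) ^ 2) P (wx A X' Y') (wy A X' Y') := g2
      obtain ⟨k1, k2⟩ := h.inj g2'
      obtain ⟨k3, k4⟩ := wx_inj hAq h1 g1 (h2.trans k1) (h3.trans k2)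
      rw [k3, k4]
    · intro P Q X Y h1 h2
      have h1' : At (a := 0) (b := -432 * (A : ℚ) ^ 2) P (wx A X Y) (wy A X Y) := h1.2
      have h2' : At (a := 0) (b := -432 * (A : ℚ) ^ 2) Q (wx A Y X) (wy A Y X) := h2.2
      have h3 : Q = -P := by
        refine h2'.ext (h1'.neg.congr ?_ ?_)
        · unfold wx; rw [add_comm]
        · unfold wy; rw [add_comm Y X]; ring
      rw [h3, add_neg_cancel]
    · intro P₁ P₂ P₃ X₁ Y₁ X₂ Y₂ X₃ Y₃ a b c h1 h2 h3 n12 n13 n23 hab l1 l2 l3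
      exact collinear hAq h1.1 h2.1 h3.1 hab l1 l2 l3 n12 n13 n23 h1.2 h2.2 h3.2
  · intro p q hp hq hpq hp3 hq3 h9 x y z U V hx hy hz hU hV h hcop hM
    rw [← h] at hM
    have hc := crit (D := (p * q : ℤ)) hp hq hpq hp3 hq3 h9 rfl hx hy hz hU hV h hcop hM
    have hAq : (((p * q : ℤ)) : ℚ) ≠ 0 := by
      exact_mod_cast mul_ne_zero hp.ne_zero hq.ne_zero
    refine of_cyc (cube_of_cyc hAq ?_ hc) hc
    have hU0 : U ≠ 0 := by
      rw [hU]
      exact mul_ne_zero (by exact_mod_cast hp.ne_zero) (pow_ne_zero 3 hx)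
    have hV0 : V ≠ 0 := by
      rw [hV]
      exact mul_ne_zero (by exact_mod_cast hq.ne_zero) (pow_ne_zero 3 hy)
    have hUV : U + V ≠ 0 := by
      rw [h]
      exact pow_ne_zero 3 hz
    have hUq : (U : ℚ) ≠ 0 := by exact_mod_cast hU0
    have hVq : (V : ℚ) ≠ 0 := by exact_mod_cast hV0
    have hUVq : (U : ℚ) + V ≠ 0 := by exact_mod_cast hUV
    have hn := (nf_pos (v := (V : ℚ)) hUq).ne'
    have hxq : (x : ℚ) ≠ 0 := by exact_mod_cast hx
    have hyq : (y : ℚ) ≠ 0 := by exact_mod_cast hy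
    have hzq : (z : ℚ) ≠ 0 := by exact_mod_cast hz
    rw [← add_div]
    refine div_ne_zero ?_ (mul_ne_zero (mul_ne_zero (by norm_num) (mul_ne_zero (mul_ne_zero hxq hyq) hzq)) hn)
    have e : -((U : ℚ) ^ 3 - 3 * U ^ 2 * V - 6 * U * V ^ 2 - V ^ 3) +
        ((U : ℚ) ^ 3 + 6 * U ^ 2 * V + 3 * U * V ^ 2 - V ^ 3) = 9 * (U * V * (U + V)) := by ring
    rw [e]
    exact mul_ne_zero (by norm_num) (mul_ne_zero (mul_ne_zero hUq hVq) hUVq)
  · intro p q w hp hq hpq hp3 hq3 h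
    have hc := sum_cube (D := (p * q : ℤ)) hp hq hpq hp3 hq3 h rfl
    have hAq : (((p * q : ℤ)) : ℚ) ≠ 0 := by
      exact_mod_cast mul_ne_zero hp.ne_zero hq.ne_zero
    refine of_cyc (cube_of_cyc hAq ?_ hc) hc
    have hp0 : (0 : ℚ) < p := by exact_mod_cast hp.pos
    have hq0 : (0 : ℚ) < q := by exact_mod_cast hq.pos
    have hw : 0 < w := by
      rcases Nat.eq_zero_or_pos w with h0 | h0
      · subst h0
        have := hp.pos
        omega
      · exact h0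
    have hw0 : (0 : ℚ) < w := by exact_mod_cast hw
    rw [← add_div]
    have e : ((q : ℚ) ^ 3 + 6 * p * q ^ 2 + 3 * p ^ 2 * q - p ^ 3) +
        ((p : ℚ) ^ 3 + 6 * p ^ 2 * q + 3 * p * q ^ 2 - q ^ 3) = 9 * (p * q * (p + q)) := by ring
    rw [e]
    positivity
  · intro p q w hp hq hw hp3 hq3 h9 h
    have hc := sub_cube (D := (p * q : ℤ)) hp hq hp3 hq3 h9 hw h rfl
    have hAq : (((p * q : ℤ)) : ℚ) ≠ 0 := by
      exact_mod_cast mul_ne_zero hp.ne_zero hq.ne_zero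
    refine of_cyc (cube_of_cyc hAq ?_ hc) hc
    have hp0 : (0 : ℚ) < p := by exact_mod_cast hp.pos
    have hq0 : (0 : ℚ) < q := by exact_mod_cast hq.pos
    have hw0 : (0 : ℚ) < w := by exact_mod_cast hw
    have hpq : (q : ℚ) < p := by
      have : q < p := by
        have := Nat.pow_pos (n := 3) hw
        omega
      exact_mod_cast this
    have hn : (0 : ℚ) < p ^ 2 - p * q + q ^ 2 := by nlinarith
    rw [← add_div]
    have e : ((p : ℚ) ^ 3 + 3 * p ^ 2 * q - 6 * p * q ^ 2 + q ^ 3) +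
        (-(p : ℚ) ^ 3 + 6 * p ^ 2 * q - 3 * p * q ^ 2 - q ^ 3) = 9 * (p * q * (p - q)) := by ring
    rw [e]
    have : (0 : ℚ) < p - q := by linarith
    positivity
  · rintro A X Y ⟨P, -, hP⟩
    have h1 : (1 : ℕ) ∈ {n | ∃ S : Finset (Points A), S.card = n ∧
        AddSubgroup.closure (S : Set (Points A)) = ⊤} := by
      refine ⟨{P}, Finset.card_singleton P, ?_⟩
      rw [Finset.coe_singleton, AddSubgroup.eq_top_iff']
      intro Q
      obtain ⟨n, hn⟩ := hP.2 Q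
      rw [AddSubgroup.mem_closure_singleton]
      exact ⟨n, hn⟩
    have h2 : r A ≤ 1 := Nat.sInf_le h1
    have h3 : r A ≠ 0 := by
      intro h0
      unfold r at h0
      rcases Nat.sInf_eq_zero.1 h0 with h4 | h4
      · obtain ⟨S, hS, hcl⟩ := h4
        rw [Finset.card_eq_zero] at hS
        rw [hS, Finset.coe_empty, AddSubgroup.closure_empty] at hcl
        have h5 : P ∈ (⊥ : AddSubgroup (Points A)) := by rw [hcl]; exact AddSubgroup.mem_top P
        rw [AddSubgroup.mem_bot] at h5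
        have h6 := hP.1 (a₁ := 0) (a₂ := 1) (by simp [h5])
        norm_num at h6
      · rw [h4] at h1
        exact h1
    omega
  · exact count

end Pool.Agent.Results.MP_8e0b0b_nt.InfiniteCyclic
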