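import Pool.Agent.T2H25.CB.Fin
import Pool.Agent.Results.MP_8e0b0b_nt.CubicTwistsCriterion

/-!
# `X³ + Y³ = A` for all the subproducts of a random tuple of primes at the same time

Let `p = (p_i)` be a tuple of different primes, indexed by `Fin s ⊕ Fin r`, the first `s` of them `≡ 1`,
the last `r` of them `≡ 2` modulo `3`. For the exponents `e_i ∈ 𝔽₃` (taken in `{0, 1, 2}`) consider
`D = num p e = ∏ p_i^{e_i}`. The set `Ex p` of the exponents such that exactly one of the last `r` primes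
divides `D`, and `D ≢ ±1` modulo `9`, depends only on the residues of the `p_i` modulo `9`. Let
`dat p i l ∈ 𝔽₃` be the cubic residue symbol of `p_l` modulo `p_i`, `i ≤ s`, written additively.

* For every tuple and every `e ∈ Ex p` the matrix `mat (dat p) e` over `𝔽₃` is not singular if and only
  if `E_D(ℚ)` is finite and `Ш(E_D/ℚ)[3^∞] = 0`, for the curve `E_D : y² + D y = x³`, which is
  `3`-isogenous to `X³ + Y³ = D`. In this case `C_A(ℚ)` is known for all `A = D n³`, `n ≠ 0`: it is `{O}`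
  if `D ≠ 2` and `{O, (n, n)}` if `D = 2` (`Solved D`).
* The joint distribution: for arbitrary sets `P_i` of primes `≤ X_i` in given residue classes modulo `9`
  and every set `V` of exponents, the number of the tuples of different primes `p_i ∈ P_i` such that
  `E_D(ℚ)` is finite and `Ш(E_D/ℚ)[3^∞] = 0` exactly for the `e ∈ V` is the number of all tuples times the
  probability that for random symbols (independent and uniformly distributed in `𝔽₃`) the matrices are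
  nonsingular exactly for the `e ∈ V`, up to `O(z ^ (-1/12) ∏ X_i)`, `z = min X_i`.
* All the curves: if the first `s` primes are `≡ 1` and the last `r ≥ 1` are `≡ 2` or `5` modulo `9`, then
  `Ex p` has `r · 2 · 3 ^ s` elements. The condition holds for all of them if and only if for every
  `i ≤ s` all the other `p_l`, `l ≤ s`, are cubes modulo `p_i` and none of the last `r` primes is a cube
  modulo `p_i`; then all the curves `X³ + Y³ = D n³` are solved at the same time; for the primes in any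
  sets with positive lower density the proportion of these tuples is exactly
  `(2/3)^{r s} (1/3)^{s (s - 1)}`.

The criterion for one `D` is that of the starting files (`MP_8e0b0b_nt/CubicTwistsCriterion`), the bilinear
estimates for the cubic symbols are those of `Pool/Agent/Y261/CX/BIL1` and `Pool/Agent/Y779/CX/BIL2`.
-/

set_option autoImplicit false

open scoped Classical

open Finset Filter Topology

namespace Pool.Agent.Results.MP_8e0b0b_nt.SubproductsLaw

open Pool.Agent.T2H25.CB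
open Pool.Agent.Y703.CT (Cls Triv3 NoSplit fin_all)
open Pool.Agent.V11291.FK (Dn)

/-- For every integer `n ≠ 0` the curve `X³ + Y³ = D n³` has no rational point but the point at
infinity, and `(n, n)` if `D = 2`. -/
def Solved (D : ℕ) : Prop :=
  ∀ n : ℤ, n ≠ 0 → ∀ X Y : ℚ, X ^ 3 + Y ^ 3 = D * (n : ℚ) ^ 3 → D = 2 ∧ X = n ∧ Y = n

/-- the points (the end is the argument of helper26 in `MP_8e0b0b_nt/EveryMatrix`) -/
theorem solved_of {D : ℕ} (hcls : Cls D) (hns : NoSplit D) : Solved D := by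
  intro n hn X Y hXY
  have hD0 : D ≠ 0 := hcls.1.1
  have hn' : (n : ℚ) ≠ 0 := by exact_mod_cast hn
  have hg : Pool.Agent.Results.MP_8e0b0b_nt.CubicTwistsCriterion.Good
      ((D : ℤ) * n ^ 3).natAbs := by
    refine ⟨D, n.natAbs, ?_, Int.natAbs_ne_zero.2 hn,
      (Pool.Agent.Results.MP_8e0b0b_nt.CubicTwistsCriterion.class_iff D).2 hcls,
      (Pool.Agent.Results.MP_8e0b0b_nt.CubicTwistsCriterion.noSplit_iff D).2 hns⟩
    rw [Int.natAbs_mul, Int.natAbs_pow, Int.natAbs_natCast]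
  have hXYe := Pool.Agent.Results.MP_8e0b0b_nt.CubicTwistsCriterion.points hg (X := X) (Y := Y)
    (by push_cast; exact hXY)
  have h2 : 2 * (X / n) ^ 3 = (D : ℚ) := by
    rw [← hXYe] at hXY
    field_simp
    linarith
  have h3 : (2 * (X / n)) ^ 3 = ((4 * D : ℤ) : ℚ) := by
    push_cast
    linear_combination 4 * h2
  obtain ⟨m, hm⟩ : ∃ m : ℤ, (m : ℚ) = 2 * (X / n) := by
    have h4 : IsIntegral ℤ (2 * (X / n)) := by
      refine IsIntegral.of_pow (n := 3) (by norm_num) ?_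
      rw [h3]
      exact isIntegral_algebraMap
    obtain ⟨m, hm⟩ := IsIntegrallyClosed.isIntegral_iff.1 h4
    exact ⟨m, hm⟩
  rw [← hm] at h3
  have h5 : m ^ 3 = 4 * (D : ℤ) := by exact_mod_cast h3
  have h6 : (2 : ℤ) ∣ m := by
    have : (2 : ℤ) ∣ m ^ 3 := ⟨2 * D, by rw [h5]; ring⟩
    exact Int.prime_two.dvd_of_dvd_pow this
  obtain ⟨t, rfl⟩ := h6
  have h7 : 2 * t ^ 3 = (D : ℤ) := by linarith
  have ht : t.natAbs = 1 := by
    by_contra hne
    obtain ⟨r, hr, hrt⟩ := Nat.exists_prime_and_dvd hne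
    apply hcls.1.2.2 r hr
    have h8 : ((r : ℤ)) ^ 3 ∣ (D : ℤ) := by
      rw [← h7]
      exact (pow_dvd_pow_of_dvd (Int.natCast_dvd.2 hrt) 3).mul_left 2
    exact_mod_cast h8
  have ht1 : t = 1 := by
    rcases Int.natAbs_eq t with h | h
    · rw [h, ht]; rfl
    · exfalso
      rw [ht] at h
      rw [h] at h7
      norm_num at h7
      omega
  have hX : X = n := by
    rw [ht1] at hm
    push_cast at hm
    have h9 : X / n = 1 := by linarith
    field_simp at h9
    exact h9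
  refine ⟨?_, hX, by rw [← hXYe, hX]⟩
  rw [ht1] at h7
  omega

theorem crit' {s r : ℕ} {p : Fin s ⊕ Fin r → ℕ} (h : Tup p) {e : Fin s ⊕ Fin r → ZMod 3}
    (he : e ∈ Ex p) : (Triv3 (num p e) ↔ (mat (dat p) e).det ≠ 0) ∧
      ((mat (dat p) e).det ≠ 0 → Solved (num p e)) ∧ (Triv3 (num p e) ↔ ThreePart (num p e)) := by
  obtain ⟨h1, h2, h3⟩ := crit h he
  refine ⟨h2, fun h4 => solved_of h1 ?_, h2.trans h3.symm⟩
  obtain ⟨-, f, -, u, -, -, -, h5⟩ := fin_all h1
  exact h5.1 (h2.2 h4)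

theorem result :
    -- the criterion
    (∀ (s r : ℕ) (p : Fin s ⊕ Fin r → ℕ), Tup p →
      (∀ (i : Fin s) (l : Fin s ⊕ Fin r), l ≠ Sum.inl i →
        (dat p i l = 0 ↔ ∃ x : ℤ, (p (Sum.inl i) : ℤ) ∣ (p l : ℤ) - x ^ 3)) ∧
      ∀ e ∈ Ex p, (Triv3 (num p e) ↔ (mat (dat p) e).det ≠ 0) ∧
        ((mat (dat p) e).det ≠ 0 → Solved (num p e))) ∧
    -- the joint distribution
    (∃ C : ℝ, 0 ≤ C ∧ ∀ (s r : ℕ) (ρ : Fin s ⊕ Fin r → ℕ) (P : Fin s ⊕ Fin r → Finset ℕ)
      (X : Fin s ⊕ Fin r → ℕ) (z : ℕ), Boxes ρ P X z → ∀ V : Finset (Fin s ⊕ Fin r → ZMod 3),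
      |(((DBox P).filter fun p => ∀ e ∈ Ex ρ, (Triv3 (num p e) ↔ e ∈ V)).card : ℝ) -
        prob (fun R => ∀ e ∈ Ex ρ, ((mat R e).det ≠ 0 ↔ e ∈ V)) * ((DBox P).card : ℝ)| ≤
      (s + r : ℝ) ^ (s + r) * (3 ^ (s * (s + r - 1)) *
        (C * (z : ℝ) ^ (-(1 / 12) : ℝ) * ∏ i, (X i : ℝ)))) ∧
    -- all the curves: the proportion of the tuples
    (∀ (s r : ℕ) (ρ : Fin s ⊕ Fin r → ℕ) (A : Fin s ⊕ Fin r → ℕ → Prop), 0 < r →
      (∀ i, ρ (Sum.inl i) % 9 = 1) → (∀ j, ρ (Sum.inr j) % 9 = 2 ∨ ρ (Sum.inr j) % 9 = 5) →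
      (∀ i q, A i q → q.Prime ∧ q % 9 = ρ i % 9) → (∀ i, Dn (A i)) →
      (Ex ρ).card = r * (2 * 3 ^ s) ∧
      Tendsto (fun X : ℕ => (((DBox (Up A X)).filter fun p =>
          ∀ e ∈ Ex ρ, Triv3 (num p e) ∧ Solved (num p e)).card : ℝ) /
        ((DBox (Up A X)).card : ℝ)) atTop (𝓝 ((2 / 3) ^ (r * s) * (1 / 3) ^ (s * (s - 1))))) ∧
    -- all the curves: the tuples
    ∀ (s r : ℕ) (p : Fin s ⊕ Fin r → ℕ), 0 < r → Tup p → (∀ i, p (Sum.inl i) % 9 = 1) →
      (∀ j, p (Sum.inr j) % 9 = 2 ∨ p (Sum.inr j) % 9 = 5) →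
      ((∀ e ∈ Ex p, Triv3 (num p e) ∧ Solved (num p e)) ↔
        (∀ i l : Fin s, i ≠ l → ∃ x : ℤ, (p (Sum.inl i) : ℤ) ∣ (p (Sum.inl l) : ℤ) - x ^ 3) ∧
        ∀ (i : Fin s) (j : Fin r), ¬ ∃ x : ℤ, (p (Sum.inl i) : ℤ) ∣ (p (Sum.inr j) : ℤ) - x ^ 3) := by
  have hone : ∀ {s r : ℕ} {p : Fin s ⊕ Fin r → ℕ}, Tup p → ∀ {e : Fin s ⊕ Fin r → ZMod 3},
      e ∈ Ex p → ((Triv3 (num p e) ∧ Solved (num p e)) ↔ ThreePart (num p e)) := by
    intro s r p h e he
    obtain ⟨h1, h2, h3⟩ := crit' h he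
    exact ⟨fun h4 => h3.1 h4.1, fun h4 => ⟨h3.2 h4, h2 (h1.1 (h3.2 h4))⟩⟩
  refine ⟨fun s r p hp => ⟨dat_cube hp, fun e he => ⟨(crit' hp he).1, (crit' hp he).2.1⟩⟩, ?_, ?_, ?_⟩
  · obtain ⟨C, hC, h⟩ := joint
    refine ⟨C, hC, fun s r ρ P X z hB V => ?_⟩
    refine le_trans (le_of_eq ?_) (h s r ρ P X z hB V)
    congr 3
    refine filt fun p hp => forall₂_congr fun e he => ?_
    have ht := tup_of hB.one hB.two (fun i => ⟨(hB.mem i _ ((mem_DBox.1 hp).1 i)).1,
      (hB.mem i _ ((mem_DBox.1 hp).1 i)).2.1⟩) (mem_DBox.1 hp).2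
    rw [← Ex_congr fun i => (hB.mem i _ ((mem_DBox.1 hp).1 i)).2.1] at he
    rw [(crit' ht he).2.2]
  · intro s r ρ A hr h1 h2 hA hD
    refine ⟨by rw [Ex_eq_One h1 h2, card_One], ?_⟩
    refine (all_lim hr h1 h2 hA hD).congr fun X => ?_
    congr 2
    refine filt fun p hp => forall₂_congr fun e he => ?_
    have hq : ∀ i, (p i).Prime ∧ p i % 9 = ρ i % 9 := by
      intro i
      have h3 := (mem_DBox.1 hp).1 i
      unfold Up at h3
      exact hA i _ (mem_filter.1 h3).2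
    have ht := tup_of (fun i => by have := h1 i; omega) (fun j => by have := h2 j; omega) hq
      (mem_DBox.1 hp).2
    rw [← Ex_congr fun i => (hq i).2] at he
    exact (hone ht he).symm
  · intro s r p hr hp h1 h2
    rw [← all_iff_cubes hr hp (Ex_eq_One h1 h2)]
    exact forall₂_congr fun e he => hone hp he

end Pool.Agent.Results.MP_8e0b0b_nt.SubproductsLaw
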